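import Mathlib

open Finset

namespace Pool.Agent.Results.MP_c9b02e_lc.RateOneHalf

/-- The possible values of the pair `(R, S)`: disjoint subsets of the `K` message indices of
sizes `M₁` and `M₂`. -/
@[irreducible] def pairs (K M₁ M₂ : ℕ) : Finset (Finset (Fin K) × Finset (Fin K)) :=
  univ.filter fun p => p.1.card = M₁ ∧ p.2.card = M₂ ∧ Disjoint p.1 p.2

/-- The law of `(W, R, S)`: `(R, S)` is uniform on `pairs K M₁ M₂`, and given `(R, S)` the index
`W` is uniform on the `K - M₁ - M₂` remaining indices. -/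
noncomputable def prior (K M₁ M₂ : ℕ) (w : Fin K) (r s : Finset (Fin K)) : ℝ :=
  if (r, s) ∈ pairs K M₁ M₂ ∧ w ∉ r ∪ s then
    1 / ((pairs K M₁ M₂).card : ℝ) * (1 / ((K : ℝ) - M₁ - M₂)) else 0

/-- A single-server protocol for `K` messages in `F ^ n`.  `law w r s` is the law of the query
given `(W, R, S) = (w, r, s)` (so the query is a randomised function of `(W, R, S)`, independent of
the messages), and the answer is a deterministic function of the query and the messages. -/
structure Protocol (K M₁ M₂ : ℕ) (F : Type) (n : ℕ) where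
  /-- the queries -/
  Query : Type
  /-- the answers -/
  Answer : Type
  /-- finitely many queries -/
  fintypeQuery : Fintype Query
  /-- finitely many answers -/
  fintypeAnswer : Fintype Answer
  /-- equality of answers is decidable -/
  decEqAnswer : DecidableEq Answer
  /-- law of the query given `(W, R, S)` -/
  law : Fin K → Finset (Fin K) → Finset (Fin K) → Query → ℝ
  law_nonneg : ∀ w r s Q, 0 ≤ law w r s Q
  law_sum : ∀ w r s, (r, s) ∈ pairs K M₁ M₂ → w ∉ r ∪ s → ∑ Q, law w r s Q = 1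
  /-- the answer of the server -/
  answer : Query → (Fin K → Fin n → F) → Answer

attribute [instance] Protocol.fintypeQuery Protocol.fintypeAnswer Protocol.decEqAnswer

namespace Protocol

variable {K M₁ M₂ : ℕ} {F : Type} {n : ℕ} (P : Protocol K M₁ M₂ F n)

/-- `ℙ(W = w, R = r, S = s, Q = Q₀)`. -/
noncomputable def joint (w : Fin K) (r s : Finset (Fin K)) (Q : P.Query) : ℝ :=
  prior K M₁ M₂ w r s * P.law w r s Q

/-- `ℙ(Q = Q₀)`. -/
noncomputable def probQuery (Q : P.Query) : ℝ := ∑ w, ∑ r, ∑ s, P.joint w r s Q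

/-- Privacy: `ℙ(W = w, R = r ∣ Q) = ℙ(W = w, R = r)` for every query value `Q` of positive
probability and all `w ∉ r`, `|r| = M₁`. -/
def Private : Prop :=
  ∀ Q : P.Query, 0 < P.probQuery Q → ∀ (w : Fin K) (r : Finset (Fin K)), r.card = M₁ → w ∉ r →
    (∑ s, P.joint w r s Q) / P.probQuery Q = ∑ s, prior K M₁ M₂ w r s

/-- Recoverability: for all values of `(W, R, S, Q)` of positive probability, the message `X_W` is
a function of the answer and of the messages with index in `R ∪ S`. -/
def Recoverable : Prop :=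
  ∀ (w : Fin K) (r s : Finset (Fin K)) (Q : P.Query), 0 < P.joint w r s Q →
    ∀ X X' : Fin K → Fin n → F, P.answer Q X = P.answer Q X' →
      (∀ k ∈ r ∪ s, X k = X' k) → X w = X' w

/-- `ℙ(A = a)`, where the messages are uniform and independent of `(W, R, S, Q)`. -/
noncomputable def probAnswer [Fintype F] (a : P.Answer) : ℝ :=
  ∑ w, ∑ r, ∑ s, ∑ Q : P.Query, P.joint w r s Q *
    (((univ.filter fun X : Fin K → Fin n → F => P.answer Q X = a).card : ℝ) /
      (Fintype.card (Fin K → Fin n → F) : ℝ))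

/-- The entropy `H(A)` in bits. -/
noncomputable def answerEntropy [Fintype F] : ℝ :=
  ∑ a, Real.negMulLog (P.probAnswer a) / Real.log 2

/-- The rate `B / H(A)`, where `B = n log₂ |F|`. -/
noncomputable def rate [Fintype F] : ℝ :=
  (n * Real.logb 2 (Fintype.card F)) / P.answerEntropy

end Protocol

/-- The capacity: the supremum of the rates of all private and recoverable protocols, over all
finite fields and all message lengths. -/
noncomputable def capacity (K M₁ M₂ : ℕ) : EReal :=
  sSup {x : EReal | ∃ (F : Type) (_ : Field F) (_ : Fintype F) (n : ℕ) (P : Protocol K M₁ M₂ F n),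
    1 ≤ n ∧ P.Private ∧ P.Recoverable ∧ x = ((P.rate : ℝ) : EReal)}

/-! ### The construction for `K = 9`, `M₁ = M₂ = 3` -/

/-- three classes of three positions -/
def cls (x : Fin 9) : Fin 3 := ⟨x.val / 3, by omega⟩

/-- valid triples -/
def V (w : Fin 9) (r s : Finset (Fin 9)) : Prop := (r, s) ∈ pairs 9 3 3 ∧ w ∉ r ∪ s

lemma V_iff {w : Fin 9} {r s : Finset (Fin 9)} :
    V w r s ↔ r.card = 3 ∧ s.card = 3 ∧ Disjoint r s ∧ w ∉ r ∧ w ∉ s := by
  simp only [V, pairs, mem_filter, mem_univ, true_and, mem_union, not_or]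
  tauto

/-- good triples -/
def Good (w : Fin 9) (r s : Finset (Fin 9)) : Prop :=
  ∃ k : Fin 3, cls w ≠ k ∧ ∀ x, x ≠ w → x ∉ r → x ∉ s → cls x = k

open Classical in
/-- the kernel choosing a good `s` uniformly -/
noncomputable def κ (w : Fin 9) (r s : Finset (Fin 9)) : ℝ :=
  if V w r s ∧ Good w r s then
    1 / ((univ.filter fun s' => V w r s' ∧ Good w r s').card : ℝ) else 0

lemma κ_nonneg (w : Fin 9) (r s : Finset (Fin 9)) : 0 ≤ κ w r s := by
  unfold κ; split_ifs <;> positivity

lemma cls_card (k : Fin 3) : (univ.filter fun x : Fin 9 => cls x = k).card = 3 := by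
  revert k; decide

lemma exists_class (w : Fin 9) (r : Finset (Fin 9)) (hr : r.card = 3) :
    ∃ k : Fin 3, cls w ≠ k ∧ 2 ≤ ((univ.filter fun x : Fin 9 => cls x = k) \ r).card := by
  by_contra hcon
  push Not at hcon
  obtain ⟨j, k, hj, hk, hjk⟩ : ∃ j k : Fin 3, cls w ≠ j ∧ cls w ≠ k ∧ j ≠ k := by
    generalize cls w = i
    revert i; decide
  have h1 := hcon j hj
  have h2 := hcon k hk
  have h3 := card_sdiff_add_card_inter (univ.filter fun x : Fin 9 => cls x = j) r
  have h4 := card_sdiff_add_card_inter (univ.filter fun x : Fin 9 => cls x = k) r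
  rw [cls_card] at h3 h4
  have h5 : Disjoint ((univ.filter fun x : Fin 9 => cls x = j) ∩ r)
      ((univ.filter fun x : Fin 9 => cls x = k) ∩ r) := by
    rw [Finset.disjoint_left]
    intro x hx hx'
    simp only [mem_inter, mem_filter, mem_univ, true_and] at hx hx'
    exact hjk (hx.1.symm.trans hx'.1)
  have h6 : (((univ.filter fun x : Fin 9 => cls x = j) ∩ r) ∪
      ((univ.filter fun x : Fin 9 => cls x = k) ∩ r)).card ≤ r.card := by
    apply card_le_card
    intro x hx
    simp only [mem_union, mem_inter] at hx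
    tauto
  rw [card_union_of_disjoint h5] at h6
  omega

lemma exists_good (w : Fin 9) (r : Finset (Fin 9)) (hr : r.card = 3) (hw : w ∉ r) :
    ∃ s, V w r s ∧ Good w r s := by
  obtain ⟨k, hk, hc⟩ := exists_class w r hr
  obtain ⟨Z, hZ, hZc⟩ := exists_subset_card_eq hc
  have hwZ : w ∉ Z := fun h => by
    have := hZ h
    simp only [mem_sdiff, mem_filter, mem_univ, true_and] at this
    exact hk this.1
  have hrZ : Disjoint r Z := by
    rw [Finset.disjoint_left]
    intro x hx hx'
    exact (mem_sdiff.1 (hZ hx')).2 hx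
  have hwrZ : w ∉ r ∪ Z := by simp [hw, hwZ]
  refine ⟨(insert w (r ∪ Z))ᶜ, V_iff.2 ⟨hr, ?_, ?_, hw, ?_⟩, k, hk, ?_⟩
  · rw [card_compl, card_insert_of_notMem hwrZ, card_union_of_disjoint hrZ, hr, hZc]
    simp
  · rw [Finset.disjoint_left]
    intro x hx hx'
    simp only [mem_compl, mem_insert, mem_union, not_or] at hx'
    exact hx'.2.1 hx
  · simp
  · intro x hxw hxr hxs
    simp only [mem_compl, mem_insert, mem_union, not_not] at hxs
    rcases hxs with h | h | h
    · exact absurd h hxw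
    · exact absurd h hxr
    · have := hZ h
      simp only [mem_sdiff, mem_filter, mem_univ, true_and] at this
      exact this.1

/-- sum of the kernel -/
lemma κ_sum (w : Fin 9) (r : Finset (Fin 9)) (hr : r.card = 3) (hw : w ∉ r) :
    ∑ s, κ w r s = 1 := by
  classical
  unfold κ
  rw [← sum_filter, sum_const, nsmul_eq_mul]
  have : 0 < (univ.filter fun s' => V w r s' ∧ Good w r s').card := by
    obtain ⟨s, hs⟩ := exists_good w r hr hw
    exact card_pos.2 ⟨s, by simp [hs]⟩
  field_simp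

/-- the permutations act on valid triples -/
lemma V_map {w : Fin 9} {r s : Finset (Fin 9)} (σ : Equiv.Perm (Fin 9)) :
    V (σ w) (r.map σ.toEmbedding) (s.map σ.toEmbedding) ↔ V w r s := by
  simp only [V_iff, card_map, Finset.disjoint_map, mem_map_equiv, Equiv.symm_apply_apply]

lemma trans {w w' : Fin 9} {r s r' s' : Finset (Fin 9)} (h : V w r s) (h' : V w' r' s') :
    ∃ τ : Equiv.Perm (Fin 9), τ w = w' ∧ r.map τ.toEmbedding = r' ∧
      s.map τ.toEmbedding = s' := by
  have key : ∀ {w : Fin 9} {r s : Finset (Fin 9)}, V w r s → ∃ x : Fin 7 → Fin 9,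
      Function.Injective x ∧ w = x 0 ∧ r = {x 1, x 2, x 3} ∧ s = {x 4, x 5, x 6} := by
    intro w r s h
    obtain ⟨hr, hs, hd, hwr, hws⟩ := V_iff.1 h
    obtain ⟨a, b, c, hab, hac, hbc, rfl⟩ := card_eq_three.1 hr
    obtain ⟨d, e, f, hde, hdf, hef, rfl⟩ := card_eq_three.1 hs
    refine ⟨![w, a, b, c, d, e, f], ?_, rfl, rfl, rfl⟩
    simp only [mem_insert, mem_singleton, not_or] at hwr hws
    simp only [disjoint_insert_left, disjoint_singleton_left, mem_insert, mem_singleton,
      not_or] at hd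
    obtain ⟨h1, h2, h3⟩ := hwr
    obtain ⟨h4, h5, h6⟩ := hws
    obtain ⟨⟨h7, h8, h9⟩, ⟨h10, h11, h12⟩, h13, h14, h15⟩ := hd
    intro i j hij
    fin_cases i <;> fin_cases j <;> simp_all [eq_comm]
  obtain ⟨x, hx, rfl, rfl, rfl⟩ := key h
  obtain ⟨y, hy, rfl, rfl, rfl⟩ := key h'
  obtain ⟨τ, hτ⟩ := Equiv.Perm.exists_extending_pair x y hx hy
  refine ⟨τ, ?_, ?_, ?_⟩ <;> simp [hτ]

/-- total weight of the orbit -/
noncomputable def S (w : Fin 9) (r s : Finset (Fin 9)) : ℝ :=
  ∑ σ : Equiv.Perm (Fin 9), κ (σ w) (r.map σ.toEmbedding) (s.map σ.toEmbedding)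

lemma S_const {w w' : Fin 9} {r s r' s' : Finset (Fin 9)} (h : V w r s) (h' : V w' r' s') :
    S w r s = S w' r' s' := by
  obtain ⟨τ, rfl, rfl, rfl⟩ := trans h h'
  unfold S
  rw [← Equiv.sum_comp (Equiv.mulRight τ)]
  refine sum_congr rfl fun σ _ => ?_
  simp only [Equiv.coe_mulRight, Equiv.Perm.mul_apply, map_map]
  rfl

lemma V_base : V 0 {1, 2, 3} {4, 5, 6} := by
  rw [V_iff]; decide

/-- the normalising constant -/
noncomputable def C : ℝ := S 0 {1, 2, 3} {4, 5, 6}

lemma C_pos : 0 < C := by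
  classical
  obtain ⟨s, hV, hG⟩ := exists_good 0 {1, 2, 3} (by decide) (by decide)
  unfold C
  rw [S_const V_base hV]
  unfold S
  refine sum_pos' (fun σ _ => κ_nonneg _ _ _) ⟨1, mem_univ _, ?_⟩
  have e1 : ({1, 2, 3} : Finset (Fin 9)).map (1 : Equiv.Perm (Fin 9)).toEmbedding = {1, 2, 3} := by
    decide
  have e2 : s.map (1 : Equiv.Perm (Fin 9)).toEmbedding = s := by
    have : (1 : Equiv.Perm (Fin 9)).toEmbedding = Function.Embedding.refl _ := rfl
    rw [this, map_refl]
  rw [e1, e2, Equiv.Perm.one_apply]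
  unfold κ
  rw [if_pos ⟨hV, hG⟩]
  have : 0 < (univ.filter fun s' => V 0 {1, 2, 3} s' ∧ Good 0 {1, 2, 3} s').card :=
    card_pos.2 ⟨s, by simp [hV, hG]⟩
  positivity

/-- the answer map as a homomorphism -/
def ans (σ : Equiv.Perm (Fin 9)) (X : Fin 9 → Fin 1 → ZMod 2) :
    (Fin 1 → ZMod 2) × (Fin 1 → ZMod 2) :=
  (∑ k, if cls (σ k) ≠ 1 then X k else 0, ∑ k, if cls (σ k) ≠ 0 then X k else 0)

/-- law of the query -/
noncomputable def qlaw (w : Fin 9) (r s : Finset (Fin 9)) (σ : Equiv.Perm (Fin 9)) : ℝ :=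
  κ (σ w) (r.map σ.toEmbedding) (s.map σ.toEmbedding) / C

lemma qlaw_nonneg (w : Fin 9) (r s : Finset (Fin 9)) (σ : Equiv.Perm (Fin 9)) :
    0 ≤ qlaw w r s σ := div_nonneg (κ_nonneg _ _ _) C_pos.le

lemma qlaw_sum (w : Fin 9) (r s : Finset (Fin 9)) (h1 : (r, s) ∈ pairs 9 3 3)
    (h2 : w ∉ r ∪ s) : ∑ σ, qlaw w r s σ = 1 := by
  have h : V w r s := by
    unfold V
    exact ⟨h1, h2⟩
  unfold qlaw
  rw [← sum_div]
  change S w r s / C = 1
  rw [S_const h V_base]
  exact div_self C_pos.ne'

/-- The protocol: the user sends the positions `σ` of the nine messages; the server answers with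
the sum of the messages outside class `1` and the sum of the messages outside class `0`. -/
noncomputable def P : Protocol 9 3 3 (ZMod 2) 1 where
  Query := Equiv.Perm (Fin 9)
  Answer := (Fin 1 → ZMod 2) × (Fin 1 → ZMod 2)
  fintypeQuery := inferInstance
  fintypeAnswer := inferInstance
  decEqAnswer := inferInstance
  law := qlaw
  law_nonneg := qlaw_nonneg
  law_sum := qlaw_sum
  answer := ans

lemma recoverable : P.Recoverable := by
  classical
  intro w r s (σ : Equiv.Perm (Fin 9)) hpos X X' hA hX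
  change ans σ X = ans σ X' at hA
  have hk : κ (σ w) (r.map σ.toEmbedding) (s.map σ.toEmbedding) ≠ 0 := by
    intro h0
    have : P.joint w r s σ = 0 := by
      change prior 9 3 3 w r s * qlaw w r s σ = 0
      unfold qlaw
      rw [h0]; simp
    rw [this] at hpos
    exact lt_irrefl _ hpos
  have hG : Good (σ w) (r.map σ.toEmbedding) (s.map σ.toEmbedding) := by
    by_contra hG
    exact hk (by unfold κ; rw [if_neg (fun h => hG h.2)])
  obtain ⟨k, hwk, hall⟩ := hG
  have hall' : ∀ x, x ≠ w → x ∉ r → x ∉ s → cls (σ x) = k := by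
    intro x h1 h2 h3
    exact hall (σ x) (fun h => h1 (σ.injective h)) (by simpa using h2) (by simpa using h3)
  -- sums of differences
  set D : Fin 9 → Fin 1 → ZMod 2 := fun x => X x - X' x with hD
  have hD0 : ∀ x ∈ r ∪ s, D x = 0 := fun x hx => by simp [hD, hX x hx]
  have h1 : ∑ x, (if cls (σ x) ≠ 1 then D x else 0) = 0 := by
    have := congrArg Prod.fst hA
    simp only [ans] at this
    rw [← sub_eq_zero, ← sum_sub_distrib] at this
    refine Eq.trans (sum_congr rfl fun x _ => ?_) this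
    split_ifs <;> simp [hD]
  have h2 : ∑ x, (if cls (σ x) ≠ 0 then D x else 0) = 0 := by
    have := congrArg Prod.snd hA
    simp only [ans] at this
    rw [← sub_eq_zero, ← sum_sub_distrib] at this
    refine Eq.trans (sum_congr rfl fun x _ => ?_) this
    split_ifs <;> simp [hD]
  have h3 : ∑ x, (if cls (σ x) ≠ 2 then D x else 0) = 0 := by
    have : ∑ x, (if cls (σ x) ≠ 2 then D x else 0) =
        ∑ x, ((if cls (σ x) ≠ 1 then D x else 0) + (if cls (σ x) ≠ 0 then D x else 0)) := by
      refine sum_congr rfl fun x _ => ?_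
      have hcase : ∀ i : Fin 3, i = 0 ∨ i = 1 ∨ i = 2 := by decide
      rcases hcase (cls (σ x)) with h | h | h
      · simp [h]
      · simp [h]
      · have h21 : (2 : Fin 3) ≠ 1 := by decide
        have h20 : (2 : Fin 3) ≠ 0 := by decide
        rw [h]
        simp only [ne_eq, not_true_eq_false, if_false, h21, h20, not_false_eq_true, if_true]
        funext i
        simp [CharTwo.add_self_eq_zero]
    rw [this, sum_add_distrib, h1, h2, add_zero]
  have hk0 : ∑ x, (if cls (σ x) ≠ k then D x else 0) = 0 := by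
    have hcase : ∀ i : Fin 3, i = 0 ∨ i = 1 ∨ i = 2 := by decide
    rcases hcase k with h | h | h <;> subst h
    · exact h2
    · exact h1
    · exact h3
  rw [sum_eq_single w] at hk0
  · rw [if_pos hwk] at hk0
    exact sub_eq_zero.1 hk0
  · intro x _ hxw
    by_cases hxr : x ∈ r ∪ s
    · rw [hD0 x hxr]; simp
    · rw [mem_union, not_or] at hxr
      rw [if_neg]
      simp [hall' x hxw hxr.1 hxr.2]
  · simp

/-- value of the prior -/
noncomputable def p0 : ℝ := 1 / ((pairs 9 3 3).card : ℝ) * (1 / (((9 : ℕ) : ℝ) - (3 : ℕ) - (3 : ℕ)))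

open Classical in
lemma prior_eq (w : Fin 9) (r s : Finset (Fin 9)) :
    prior 9 3 3 w r s = if V w r s then p0 else 0 := by
  unfold prior V p0
  congr 1

lemma pairs_pos : 0 < (pairs 9 3 3).card := by
  have := V_base
  unfold V at this
  exact card_pos.2 ⟨_, this.1⟩

lemma p0_pos : 0 < p0 := by
  unfold p0
  have := pairs_pos
  have h2 : (0 : ℝ) < ((9 : ℕ) : ℝ) - (3 : ℕ) - (3 : ℕ) := by norm_num
  positivity

lemma κ_eq_zero {w : Fin 9} {r s : Finset (Fin 9)} (h : ¬ V w r s) : κ w r s = 0 := by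
  unfold κ; rw [if_neg (fun h' => h h'.1)]

open Classical in
lemma joint_sum (w : Fin 9) (r : Finset (Fin 9)) (σ : Equiv.Perm (Fin 9)) :
    ∑ s, P.joint w r s σ = if r.card = 3 ∧ w ∉ r then p0 / C else 0 := by
  have h0 : ∀ s, P.joint w r s σ = (p0 / C) * κ (σ w) (r.map σ.toEmbedding)
      (s.map σ.toEmbedding) := by
    intro s
    change prior 9 3 3 w r s * qlaw w r s σ = _
    rw [prior_eq]
    unfold qlaw
    split_ifs with h
    · ring
    · rw [κ_eq_zero (fun h' => h (V_map σ |>.1 h'))]; simp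
  simp_rw [h0]
  rw [← mul_sum]
  have h1 : ∑ s : Finset (Fin 9), κ (σ w) (r.map σ.toEmbedding) (s.map σ.toEmbedding) =
      ∑ s, κ (σ w) (r.map σ.toEmbedding) s :=
    Equiv.sum_comp (Equiv.finsetCongr σ) (fun s => κ (σ w) (r.map σ.toEmbedding) s)
  rw [h1]
  split_ifs with h
  · rw [κ_sum _ _ (by rw [card_map]; exact h.1) (by simpa using h.2), mul_one]
  · rw [sum_eq_zero, mul_zero]
    intro s _
    apply κ_eq_zero
    intro h'
    apply h
    rw [V_iff] at h'
    exact ⟨by simpa using h'.1, by simpa using h'.2.2.2.1⟩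

open Classical in
lemma card_s (w : Fin 9) (r : Finset (Fin 9)) (hr : r.card = 3) (hw : w ∉ r) :
    (univ.filter fun s => V w r s).card = 10 := by
  have : (univ.filter fun s => V w r s) = powersetCard 3 (insert w r)ᶜ := by
    ext s
    simp only [mem_filter, mem_univ, true_and, mem_powersetCard, V_iff]
    constructor
    · rintro ⟨_, h2, h3, _, h5⟩
      refine ⟨?_, h2⟩
      intro x hx
      simp only [mem_compl, mem_insert, not_or]
      exact ⟨fun h => h5 (h ▸ hx), fun h => (Finset.disjoint_left.1 h3) h hx⟩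
    · rintro ⟨h1, h2⟩
      refine ⟨hr, h2, ?_, hw, ?_⟩
      · rw [Finset.disjoint_left]
        intro x hx hx'
        have := h1 hx'
        simp only [mem_compl, mem_insert, not_or] at this
        exact this.2 hx
      · intro h
        have := h1 h
        simp at this
  rw [this, card_powersetCard, card_compl, card_insert_of_notMem hw, hr]
  rfl

open Classical in
lemma prior_sum (w : Fin 9) (r : Finset (Fin 9)) :
    ∑ s, prior 9 3 3 w r s = if r.card = 3 ∧ w ∉ r then 10 * p0 else 0 := by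
  simp_rw [prior_eq]
  rw [← sum_filter, sum_const, nsmul_eq_mul]
  split_ifs with h
  · rw [card_s w r h.1 h.2]; norm_num
  · have : (univ.filter fun s => V w r s) = ∅ := by
      rw [filter_eq_empty_iff]
      intro s _ h'
      rw [V_iff] at h'
      exact h ⟨h'.1, h'.2.2.2.1⟩
    rw [this]; simp

lemma total : ∑ w, ∑ r, ∑ s, prior 9 3 3 w r s = 1 := by
  classical
  rw [sum_comm]
  simp_rw [sum_comm (s := (univ : Finset (Fin 9)))]
  have h1 : ∀ (r s : Finset (Fin 9)), ∑ w, prior 9 3 3 w r s =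
      if (r, s) ∈ pairs 9 3 3 then 3 * p0 else 0 := by
    intro r s
    simp_rw [prior_eq]
    split_ifs with h
    · have hc : (univ.filter fun w => V w r s) = (r ∪ s)ᶜ := by
        ext w
        simp only [mem_filter, mem_univ, true_and, mem_compl]
        unfold V
        exact ⟨fun h' => h'.2, fun h' => ⟨h, h'⟩⟩
      rw [← sum_filter, hc, sum_const, nsmul_eq_mul]
      have h' := h
      unfold pairs at h'
      simp only [mem_filter, mem_univ, true_and] at h'
      rw [card_compl, card_union_of_disjoint h'.2.2, h'.1, h'.2.1]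
      norm_num
    · apply sum_eq_zero
      intro w _
      rw [if_neg]
      unfold V
      exact fun h' => h h'.1
  simp_rw [h1]
  rw [← Fintype.sum_prod_type' (f := fun (r s : Finset (Fin 9)) =>
    if (r, s) ∈ pairs 9 3 3 then 3 * p0 else 0)]
  simp only [Prod.mk.eta]
  rw [sum_ite_mem, univ_inter, sum_const, nsmul_eq_mul]
  unfold p0
  have := pairs_pos
  have h3 : ((pairs 9 3 3).card : ℝ) ≠ 0 := by positivity
  field_simp
  norm_num

open Classical in
/-- number of pairs `(w, r)` -/
noncomputable def N : ℝ := ∑ w : Fin 9, ∑ r : Finset (Fin 9), if r.card = 3 ∧ w ∉ r then 1 else 0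

lemma N_eq : N * (10 * p0) = 1 := by
  classical
  rw [← total]
  simp_rw [prior_sum]
  unfold N
  rw [sum_mul]
  refine sum_congr rfl fun w _ => ?_
  rw [sum_mul]
  refine sum_congr rfl fun r _ => ?_
  split_ifs <;> simp

lemma probQuery_eq (σ : Equiv.Perm (Fin 9)) : P.probQuery σ = N * (p0 / C) := by
  classical
  unfold Protocol.probQuery
  simp_rw [joint_sum]
  unfold N
  rw [sum_mul]
  refine sum_congr rfl fun w _ => ?_
  rw [sum_mul]
  refine sum_congr rfl fun r _ => ?_
  split_ifs <;> simp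

lemma isPrivate : P.Private := by
  classical
  intro (σ : Equiv.Perm (Fin 9)) _ w r hr hw
  rw [probQuery_eq, joint_sum, prior_sum, if_pos ⟨hr, hw⟩, if_pos ⟨hr, hw⟩]
  have h1 := N_eq
  have h2 := C_pos
  have h3 := p0_pos
  have h4 : N ≠ 0 := by
    intro h; rw [h] at h1; simp at h1
  field_simp
  linarith

/-- the answer map as an additive homomorphism -/
def ansHom (σ : Equiv.Perm (Fin 9)) :
    (Fin 9 → Fin 1 → ZMod 2) →+ (Fin 1 → ZMod 2) × (Fin 1 → ZMod 2) :=
  AddMonoidHom.mk' (ans σ) (by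
    intro X Y
    simp only [ans, Prod.mk_add_mk, Prod.mk.injEq]
    constructor
    · rw [← sum_add_distrib]
      refine sum_congr rfl fun x _ => ?_
      split_ifs <;> simp
    · rw [← sum_add_distrib]
      refine sum_congr rfl fun x _ => ?_
      split_ifs <;> simp)

lemma ans_surj (σ : Equiv.Perm (Fin 9)) (a : (Fin 1 → ZMod 2) × (Fin 1 → ZMod 2)) :
    ∃ X, ans σ X = a := by
  classical
  refine ⟨fun k => if σ k = 0 then a.1 else if σ k = 3 then a.2 else 0, ?_⟩
  have c0 : cls 0 = 0 := rfl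
  have c3 : cls 3 = 1 := rfl
  refine Prod.ext ?_ ?_
  · simp only [ans]
    rw [sum_eq_single (σ.symm 0)]
    · simp [c0]
    · intro k _ hk
      have hk0 : σ k ≠ 0 := fun h => hk (by rw [← h]; simp)
      by_cases h3 : σ k = 3
      · simp [h3, c3]
      · simp [hk0, h3]
    · simp
  · simp only [ans]
    rw [sum_eq_single (σ.symm 3)]
    · simp [c3]
    · intro k _ hk
      have hk3 : σ k ≠ 3 := fun h => hk (by rw [← h]; simp)
      by_cases h0 : σ k = 0
      · simp [h0, c0]
      · simp [h0, hk3]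
    · simp

lemma fiber_card (σ : Equiv.Perm (Fin 9)) (a : (Fin 1 → ZMod 2) × (Fin 1 → ZMod 2)) :
    ((univ.filter fun X : Fin 9 → Fin 1 → ZMod 2 => ans σ X = a).card : ℝ) /
      (Fintype.card (Fin 9 → Fin 1 → ZMod 2) : ℝ) = 1 / 4 := by
  classical
  have h1 : ∀ b, (univ.filter fun X : Fin 9 → Fin 1 → ZMod 2 => ans σ X = b).card =
      (univ.filter fun X : Fin 9 → Fin 1 → ZMod 2 => ans σ X = a).card := by
    intro b
    exact AddMonoidHom.card_fiber_eq_of_mem_range (ansHom σ) (ans_surj σ b) (ans_surj σ a)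
  have h2 : (univ : Finset (Fin 9 → Fin 1 → ZMod 2)).card =
      ∑ b : (Fin 1 → ZMod 2) × (Fin 1 → ZMod 2),
        (univ.filter fun X : Fin 9 → Fin 1 → ZMod 2 => ans σ X = b).card :=
    card_eq_sum_card_fiberwise (fun _ _ => mem_univ _)
  rw [sum_congr rfl (fun b _ => h1 b), sum_const, smul_eq_mul, card_univ, card_univ] at h2
  have h3 : Fintype.card ((Fin 1 → ZMod 2) × (Fin 1 → ZMod 2)) = 4 := by
    simp [ZMod.card]
  rw [h3] at h2
  have h4 : (0 : ℝ) < (Fintype.card (Fin 9 → Fin 1 → ZMod 2) : ℝ) := by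
    exact_mod_cast Fintype.card_pos
  rw [div_eq_div_iff h4.ne' (by norm_num)]
  rw [h2]
  push_cast
  ring

lemma probAnswer_eq (a : (Fin 1 → ZMod 2) × (Fin 1 → ZMod 2)) : P.probAnswer a = 1 / 4 := by
  classical
  have h1 : P.probAnswer a = ∑ w, ∑ r, ∑ s, ∑ σ : Equiv.Perm (Fin 9),
      prior 9 3 3 w r s * qlaw w r s σ * (1 / 4) := by
    unfold Protocol.probAnswer
    refine sum_congr rfl fun w _ => sum_congr rfl fun r _ => sum_congr rfl fun s _ =>
      sum_congr rfl fun σ _ => ?_
    rw [← fiber_card σ a]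
    rfl
  rw [h1]
  have h2 : ∀ w r s, ∑ σ : Equiv.Perm (Fin 9), prior 9 3 3 w r s * qlaw w r s σ * (1 / 4) =
      prior 9 3 3 w r s * (1 / 4) := by
    intro w r s
    rw [← sum_mul]
    congr 1
    rw [← mul_sum, prior_eq]
    split_ifs with h
    · have h' := h
      unfold V at h'
      rw [qlaw_sum w r s h'.1 h'.2, mul_one]
    · simp
  simp_rw [h2, ← sum_mul]
  rw [total]
  norm_num

lemma entropy_eq : P.answerEntropy = 2 := by
  have h1 : P.answerEntropy = ∑ _a : (Fin 1 → ZMod 2) × (Fin 1 → ZMod 2),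
      Real.negMulLog (1 / 4) / Real.log 2 := by
    unfold Protocol.answerEntropy
    refine sum_congr rfl fun a _ => ?_
    rw [probAnswer_eq a]
  rw [h1, sum_const, card_univ]
  have h3 : Fintype.card ((Fin 1 → ZMod 2) × (Fin 1 → ZMod 2)) = 4 := by
    simp [ZMod.card]
  rw [h3, Real.negMulLog]
  have h4 : Real.log (1 / 4) = -(2 * Real.log 2) := by
    rw [one_div, Real.log_inv, show (4 : ℝ) = 2 ^ 2 by norm_num, Real.log_pow]
    norm_num
  have h5 : Real.log 2 ≠ 0 := (Real.log_pos (by norm_num)).ne'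
  rw [h4]
  simp only [nsmul_eq_mul]
  field_simp
  norm_num

lemma rate_eq : P.rate = 1 / 2 := by
  unfold Protocol.rate
  rw [entropy_eq, ZMod.card]
  simp

/-- **Q1 is false.**  For `K = 9`, `M₁ = M₂ = 3` there is a private and recoverable protocol of
rate `1/2`, so that the capacity is at least `1/2`, whereas `1/K* = 1/min(3, ⌈9/4⌉) = 1/3`. -/
theorem result :
    (∃ P : Protocol 9 3 3 (ZMod 2) 1, P.Private ∧ P.Recoverable ∧ P.rate = 1 / 2) ∧
    ((1 / 2 : ℝ) : EReal) ≤ capacity 9 3 3 ∧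
    ¬ ∀ M₁ M₂ K : ℕ, 2 ≤ M₁ → 2 ≤ M₂ → M₁ + M₂ < K →
      capacity K M₁ M₂ =
        ((1 / ((min (K - M₁ - M₂) ⌈(K : ℚ) / (M₂ + 1)⌉₊ : ℕ) : ℝ) : ℝ) : EReal) := by
  have h2 : ((1 / 2 : ℝ) : EReal) ≤ capacity 9 3 3 := by
    apply le_sSup
    refine ⟨ZMod 2, inferInstance, inferInstance, 1, P, le_refl _, isPrivate, recoverable, ?_⟩
    rw [rate_eq]
  refine ⟨⟨P, isPrivate, recoverable, rate_eq⟩, h2, ?_⟩
  intro hall
  have h := hall 3 3 9 (by norm_num) (by norm_num) (by norm_num)
  rw [h, EReal.coe_le_coe_iff] at h2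
  have h3 : ⌈((9 : ℕ) : ℚ) / ((3 : ℕ) + 1)⌉₊ = 3 := by
    rw [Nat.ceil_eq_iff (by norm_num)]
    norm_num
  rw [h3] at h2
  norm_num at h2

end Pool.Agent.Results.MP_c9b02e_lc.RateOneHalf
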